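import Mathlib

set_option autoImplicit false

/-!
# Einstein curvature tensors and Chern-Weil integrands: definitions (MP_ebfab8_gt)

The orthonormal basis of `ℝ^(2m)` is indexed by the pairs `(k, 0)`, `(k, 1)`, `k : Fin m`.
-/

namespace Pool.Agent.Ein

open Finset Equiv

/-- index set of an orthonormal basis of `ℝ^(2m)` -/
abbrev Idx (m : ℕ) : Type := Fin m × Fin 2

/-- components of a covariant tensor of rank four in the orthonormal basis -/
abbrev Tens (m : ℕ) : Type := Idx m → Idx m → Idx m → Idx m → ℝ

variable {m : ℕ}

/-- algebraic curvature tensors; `R a b a b` is the sectional curvature of the plane of `e a`, `e b` -/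
structure IsCurv (R : Tens m) : Prop where
  skew : ∀ a b c d, R b a c d = -R a b c d
  symm : ∀ a b c d, R c d a b = R a b c d
  bianchi : ∀ a b c d, R a b c d + R b c a d + R c a b d = 0

/-- the Ricci tensor -/
def ric (R : Tens m) (b d : Idx m) : ℝ := ∑ a, R a b a d

/-- the Einstein condition `Ric = lam * g` -/
def IsEinstein (lam : ℝ) (R : Tens m) : Prop := ∀ b d, ric R b d = if b = d then lam else 0

/-- sign of a permutation of the basis as a real number -/
noncomputable def sg (σ : Perm (Idx m)) : ℝ := ((Perm.sign σ : ℤ) : ℝ)

/-- the Gauss-Bonnet integrand (Pfaffian of the curvature form), up to a positive factor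
depending only on `m` -/
noncomputable def euler (R : Tens m) : ℝ :=
  ∑ σ : Perm (Idx m), ∑ τ : Perm (Idx m), sg σ * sg τ *
    ∏ k : Fin m, R (σ (k, 0)) (σ (k, 1)) (τ (k, 0)) (τ (k, 1))

/-- the value on the volume element of the product, over the cycles of `π`, of the forms
`tr (Ω ^ l)`, `Ω` the curvature form, `l` the length of the cycle, up to a positive factor -/
noncomputable def traceForm (π : Perm (Fin m)) (R : Tens m) : ℝ :=
  ∑ σ : Perm (Idx m), sg σ * ∑ i : Fin m → Idx m,
    ∏ k : Fin m, R (σ (k, 0)) (σ (k, 1)) (i k) (i (π k))

/-- the general Chern-Weil integrand of top degree: a linear combination of the Euler form and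
of the products of traces of powers of the curvature form -/
noncomputable def chernWeil (a : ℝ) (b : Perm (Fin m) → ℝ) (R : Tens m) : ℝ :=
  a * euler R + ∑ π, b π * traceForm π R

/-- the values of all the basic Chern-Weil integrands of top degree -/
noncomputable def charVec (R : Tens m) : ℝ × (Perm (Fin m) → ℝ) :=
  (euler R, fun π => traceForm π R)

end Pool.Agent.Ein
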