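import Pool.Agent.Hhelper29.Ein.Defs

set_option autoImplicit false

/-!
# The Euler form on diagonal curvature operators
-/

namespace Pool.Agent.Ein

open Finset Equiv

variable {m : ℕ}

/-- diagonal curvature operator with sectional curvatures `K a b` -/
def D (K : Idx m → Idx m → ℝ) : Tens m := fun a b c d =>
  K a b * ((if a = c then 1 else 0) * (if b = d then 1 else 0) -
    (if a = d then 1 else 0) * (if b = c then 1 else 0))

theorem isCurv_D {K : Idx m → Idx m → ℝ} (hK : ∀ a b, K a b = K b a) : IsCurv (D K) := by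
  refine ⟨fun a b c d => ?_, fun a b c d => ?_, fun a b c d => ?_⟩
  · unfold D
    rw [hK b a]
    ring
  · unfold D
    have e1 := hK c d
    have e2 := hK a b
    clear hK
    rcases eq_or_ne a c with rfl | h1 <;> rcases eq_or_ne b d with rfl | h2
    · simp
    · simp only [if_neg h2, if_neg (Ne.symm h2), if_true]
      rcases eq_or_ne a d with rfl | h3
      · rcases eq_or_ne b a with rfl | h4
        · simp
        · simp [h4, Ne.symm h4]
      · simp [h3, Ne.symm h3]
    · simp only [if_neg h1, if_neg (Ne.symm h1), if_true]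
      rcases eq_or_ne c b with rfl | h3
      · rcases eq_or_ne a c with rfl | h4
        · simp
        · simp [h4, Ne.symm h4]
      · simp [h3, Ne.symm h3]
    · simp only [if_neg h1, if_neg h2, if_neg (Ne.symm h1), if_neg (Ne.symm h2)]
      rcases eq_or_ne a d with rfl | h3
      · rcases eq_or_ne b c with rfl | h4
        · simp only [if_true]
          rw [e1]
        · simp [h4, Ne.symm h4]
      · simp [h3, Ne.symm h3]
  · unfold D
    have e1 := hK a b
    have e2 := hK b c
    have e3 := hK c a
    clear hK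
    rcases eq_or_ne a b with rfl | h1
    · rcases eq_or_ne a c with rfl | h2
      · simp
      · rcases eq_or_ne a d with rfl | h3
        · rw [e3]
          simp [h2, Ne.symm h2]
        · rcases eq_or_ne c d with rfl | h4
          · rw [e3]
            simp [h2, Ne.symm h2]
          · simp [h2, Ne.symm h2, h3, h4]
    · rcases eq_or_ne b c with rfl | h2
      · rcases eq_or_ne a d with rfl | h3
        · rw [e3]
          simp [h1, Ne.symm h1]
        · rcases eq_or_ne b d with rfl | h4
          · rw [e3]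
            simp [h1, Ne.symm h1]
          · simp [h1, Ne.symm h1, h3, h4]
      · rcases eq_or_ne a c with rfl | h3
        · rcases eq_or_ne a d with rfl | h4
          · rw [e1]
            simp [h1, Ne.symm h1]
          · rcases eq_or_ne b d with rfl | h5
            · rw [e1]
              simp [h1, Ne.symm h1]
            · simp [h1, Ne.symm h1, h4, h5]
        · simp [h1, Ne.symm h1, h2, Ne.symm h2, h3, Ne.symm h3]

theorem ric_D {K : Idx m → Idx m → ℝ} (h0 : ∀ a, K a a = 0) (b d : Idx m) :
    ric (D K) b d = if b = d then ∑ a, K a b else 0 := by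
  unfold ric D
  by_cases h : b = d
  · subst h
    simp only [if_true]
    refine Finset.sum_congr rfl fun a _ => ?_
    by_cases h1 : a = b
    · subst h1
      simp [h0]
    · simp [h1]
  · have e0 : (if b = d then ∑ a, K a b else 0) = 0 := if_neg h
    rw [e0]
    refine Finset.sum_eq_zero fun a _ => ?_
    by_cases h1 : a = d
    · subst h1
      simp [h]
    · simp [h, h1]

theorem traceForm_D (hm : 0 < m) (K : Idx m → Idx m → ℝ) (π : Perm (Fin m)) :
    traceForm π (D K) = 0 := by
  unfold traceForm
  refine Finset.sum_eq_zero fun σ _ => ?_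
  rw [Finset.sum_eq_zero, mul_zero]
  intro i _
  by_contra hne
  rw [← ne_eq, Finset.prod_ne_zero_iff] at hne
  have key : ∀ j : Fin m, (σ (j, 0) = i j ∧ σ (j, 1) = i (π j)) ∨
      (σ (j, 0) = i (π j) ∧ σ (j, 1) = i j) := by
    intro j
    have h := hne j (Finset.mem_univ j)
    unfold D at h
    by_contra hc
    push Not at hc
    apply h
    by_cases h1 : σ (j, 0) = i j <;> by_cases h2 : σ (j, 1) = i (π j) <;>
      by_cases h3 : σ (j, 0) = i (π j) <;> by_cases h4 : σ (j, 1) = i j <;> simp_all
  set k : Fin m := ⟨0, hm⟩ with hk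
  have a1 := key k
  have a2 := key (π k)
  have hinj : ∀ x y : Idx m, σ x = σ y → x = y := fun x y h => σ.injective h
  by_cases hf : π k = k
  · rw [hf] at a1
    have : σ (k, 0) = σ (k, 1) := by
      rcases a1 with a1 | a1
      · rw [a1.1, a1.2]
      · rw [a1.1, a1.2]
    have := hinj _ _ this
    simp at this
  · have b1 : ∃ x : Fin 2, σ (k, x) = i (π k) := by
      rcases a1 with a1 | a1
      · exact ⟨1, a1.2⟩
      · exact ⟨0, a1.1⟩
    have b2 : ∃ x : Fin 2, σ (π k, x) = i (π k) := by
      rcases a2 with a2 | a2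
      · exact ⟨0, a2.1⟩
      · exact ⟨1, a2.2⟩
    obtain ⟨x, hx⟩ := b1
    obtain ⟨y, hy⟩ := b2
    have := hinj _ _ (hx.trans hy.symm)
    exact hf (congrArg Prod.fst this).symm

/-- multiple of the hafnian -/
noncomputable def H (K : Idx m → Idx m → ℝ) : ℝ :=
  ∑ σ : Perm (Idx m), ∏ k : Fin m, K (σ (k, 0)) (σ (k, 1))

/-- auxiliary constant -/
noncomputable def cst (m : ℕ) : ℝ :=
  ∑ ρ : Perm (Idx m), sg ρ * ∏ k : Fin m,
    ((if ((k, 0) : Idx m) = ρ (k, 0) then 1 else 0) * (if ((k, 1) : Idx m) = ρ (k, 1) then 1 else 0) -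
      (if ((k, 0) : Idx m) = ρ (k, 1) then 1 else 0) * (if ((k, 1) : Idx m) = ρ (k, 0) then 1 else 0))

theorem sg_mul (σ τ : Perm (Idx m)) : sg (σ * τ) = sg σ * sg τ := by
  unfold sg
  rw [Perm.sign_mul]
  push_cast
  rfl

theorem sg_sq (σ : Perm (Idx m)) : sg σ * sg σ = 1 := by
  rw [← sg_mul]
  unfold sg
  rw [Perm.sign_mul]
  rcases Int.units_eq_one_or (Perm.sign σ) with h | h <;> rw [h] <;> norm_num

theorem euler_D (K : Idx m → Idx m → ℝ) : euler (D K) = cst m * H K := by
  unfold euler H cst
  rw [Finset.mul_sum]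
  refine Finset.sum_congr rfl fun σ _ => ?_
  rw [← Equiv.sum_comp (Equiv.mulLeft σ), Finset.sum_mul]
  refine Finset.sum_congr rfl fun ρ _ => ?_
  have h1 : sg σ * sg ((Equiv.mulLeft σ) ρ) = sg ρ := by
    rw [Equiv.coe_mulLeft, sg_mul, ← mul_assoc, sg_sq, one_mul]
  rw [h1, mul_assoc, ← Finset.prod_mul_distrib]
  congr 1
  refine Finset.prod_congr rfl fun k _ => ?_
  unfold D
  simp only [Equiv.coe_mulLeft, Perm.mul_apply, σ.injective.eq_iff]
  ring

theorem cst_pos (m : ℕ) : 0 < cst m := by
  have hterm : ∀ ρ : Perm (Idx m), 0 ≤ sg ρ * ∏ k : Fin m,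
      (((if ((k, 0) : Idx m) = ρ (k, 0) then 1 else 0) * (if ((k, 1) : Idx m) = ρ (k, 1) then 1 else 0) -
      (if ((k, 0) : Idx m) = ρ (k, 1) then 1 else 0) * (if ((k, 1) : Idx m) = ρ (k, 0) then 1 else 0) : ℝ)) := by
    intro ρ
    by_cases hz : (∏ k : Fin m,
      (((if ((k, 0) : Idx m) = ρ (k, 0) then 1 else 0) * (if ((k, 1) : Idx m) = ρ (k, 1) then 1 else 0) -
      (if ((k, 0) : Idx m) = ρ (k, 1) then 1 else 0) * (if ((k, 1) : Idx m) = ρ (k, 0) then 1 else 0) : ℝ))) = 0
    · rw [hz, mul_zero]
    · rw [← ne_eq, Finset.prod_ne_zero_iff] at hz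
      have key : ∀ k : Fin m, (ρ (k, 0) = (k, 0) ∧ ρ (k, 1) = (k, 1)) ∨
          (ρ (k, 1) = (k, 0) ∧ ρ (k, 0) = (k, 1)) := by
        intro k
        have h := hz k (Finset.mem_univ k)
        by_contra hc
        push Not at hc
        apply h
        clear h hz
        by_cases h1 : ρ (k, 0) = (k, 0)
        · have h2 := hc.1 h1
          have h4 : ρ (k, 0) ≠ (k, 1) := by
            rw [h1]
            simp
          rw [if_neg (Ne.symm h2), if_neg (Ne.symm h4), mul_zero, mul_zero, sub_zero]
        · rw [if_neg (Ne.symm h1), zero_mul, zero_sub, neg_eq_zero]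
          by_cases h3 : ρ (k, 1) = (k, 0)
          · rw [if_neg (Ne.symm (hc.2 h3)), mul_zero]
          · rw [if_neg (Ne.symm h3), zero_mul]
      set s : Fin m → Perm (Fin 2) := fun k => if ρ (k, 0) = (k, 0) then 1 else Equiv.swap 0 1 with hs
      have hρ : ρ = Equiv.prodCongrRight s := by
        ext1 x
        obtain ⟨k, x⟩ := x
        rw [Equiv.prodCongrRight_apply]
        simp only [hs]
        rcases key k with h | h
        · rw [if_pos h.1]
          fin_cases x
          · exact h.1
          · exact h.2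
        · have hn : ρ (k, 0) ≠ (k, 0) := by
            rw [h.2]
            simp
          rw [if_neg hn]
          fin_cases x
          · simpa using h.2
          · simpa using h.1
      have hsg : sg ρ = ∏ k : Fin m, ((Perm.sign (s k) : ℤ) : ℝ) := by
        unfold sg
        rw [hρ, Perm.sign_prodCongrRight]
        push_cast
        rfl
      rw [hsg, ← Finset.prod_mul_distrib]
      refine Finset.prod_nonneg fun k _ => ?_
      simp only [hs]
      rcases key k with h | h
      · rw [if_pos h.1, h.1, h.2]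
        simp
      · have hn : ρ (k, 0) ≠ (k, 0) := by
          rw [h.2]
          simp
        rw [if_neg hn, h.1, h.2]
        simp
  have h1 : (1 : ℝ) ≤ sg (1 : Perm (Idx m)) * ∏ k : Fin m,
      (((if ((k, 0) : Idx m) = (1 : Perm (Idx m)) (k, 0) then 1 else 0) *
        (if ((k, 1) : Idx m) = (1 : Perm (Idx m)) (k, 1) then 1 else 0) -
      (if ((k, 0) : Idx m) = (1 : Perm (Idx m)) (k, 1) then 1 else 0) *
        (if ((k, 1) : Idx m) = (1 : Perm (Idx m)) (k, 0) then 1 else 0) : ℝ)) := by
    unfold sg
    simp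
  have h2 := Finset.single_le_sum (f := fun ρ : Perm (Idx m) => sg ρ * ∏ k : Fin m,
      (((if ((k, 0) : Idx m) = ρ (k, 0) then 1 else 0) * (if ((k, 1) : Idx m) = ρ (k, 1) then 1 else 0) -
      (if ((k, 0) : Idx m) = ρ (k, 1) then 1 else 0) * (if ((k, 1) : Idx m) = ρ (k, 0) then 1 else 0) : ℝ)))
    (fun ρ _ => hterm ρ) (Finset.mem_univ (1 : Perm (Idx m)))
  unfold cst
  exact lt_of_lt_of_le one_pos (h1.trans h2)

/-- two-block matrices with all matchings of the same sign -/
theorem exists_K (hm : 1 ≤ m) (lam : ℝ) (p : ℕ) (hp : 2 ≤ p) (hp2 : p + 2 ≤ 2 * m) (M : ℝ) :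
    ∃ K : Idx m → Idx m → ℝ, (∀ a b, K a b = K b a) ∧ (∀ a, K a a = 0) ∧
      (∀ b, ∑ a, K a b = lam) ∧ M ≤ (-1) ^ p * H K := by
  classical
  have hcard : Fintype.card (Idx m) = 2 * m := by
    rw [Fintype.card_prod, Fintype.card_fin, Fintype.card_fin, mul_comm]
  obtain ⟨A, -, hA⟩ := Finset.exists_subset_card_eq (s := (Finset.univ : Finset (Idx m))) (n := p)
    (by rw [Finset.card_univ, hcard]; omega)
  have hAc : (Aᶜ).card = 2 * m - p := by
    rw [Finset.card_compl, hcard, hA]
  set n : ℝ := 2 * m with hn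
  have hn2 : (2 : ℝ) ≤ n := by
    rw [hn]
    have : (1 : ℝ) ≤ m := by exact_mod_cast hm
    linarith
  have hp' : (2 : ℝ) ≤ p := by exact_mod_cast hp
  have hp2' : (p : ℝ) + 2 ≤ n := by
    rw [hn]
    exact_mod_cast hp2
  set t : ℝ := 1 + |lam| + n + n * |M| with ht
  have hlam : -|lam| ≤ lam := neg_abs_le lam
  have hlam0 := abs_nonneg lam
  have hM0 := abs_nonneg M
  have hnM : 0 ≤ n * |M| := by positivity
  have ht1 : |lam| ≤ t := by linarith
  have htn : n ≤ t := by linarith
  have htM : n * |M| ≤ t := by linarith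
  have ht0 : 0 < t := by linarith
  set α : ℝ := (lam + (n - p) * t) / (p - 1) with hα
  set β : ℝ := (lam + p * t) / (n - p - 1) with hβ
  set L : Idx m → Idx m → ℝ := fun x y => if x ∈ A then (if y ∈ A then α else t) else
    (if y ∈ A then t else β) with hL
  set s : Idx m → ℝ := fun x => if x ∈ A then -1 else 1 with hs
  have hdel : ∀ x y, t / n ≤ L x y := by
    have hα' : t / n ≤ α := by
      have h1 : t ≤ lam + (n - p) * t := by nlinarith
      rw [hα]
      exact (div_le_div_of_nonneg_left ht0.le (by linarith) (by linarith)).trans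
        (div_le_div_of_nonneg_right h1 (by linarith))
    have hβ' : t / n ≤ β := by
      have h1 : t ≤ lam + p * t := by nlinarith
      rw [hβ]
      exact (div_le_div_of_nonneg_left ht0.le (by linarith) (by linarith)).trans
        (div_le_div_of_nonneg_right h1 (by linarith))
    have ht' : t / n ≤ t := div_le_self ht0.le (by linarith)
    intro x y
    simp only [hL]
    split_ifs <;> assumption
  have htn0 : 0 < t / n := by positivity
  refine ⟨fun x y => if x = y then 0 else s x * s y * L x y, ?_, ?_, ?_, ?_⟩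
  · intro x y
    simp only [hL, hs]
    by_cases h1 : x = y
    · subst h1
      rfl
    · rw [if_neg h1, if_neg (Ne.symm h1)]
      by_cases h2 : x ∈ A <;> by_cases h3 : y ∈ A <;> simp [h2, h3]
  · intro x
    simp
  · intro y
    rw [← Finset.sum_add_sum_compl A]
    by_cases hy : y ∈ A
    · have e1 : ∑ x ∈ A, (if x = y then 0 else s x * s y * L x y) = (p - 1) * α := by
        rw [← Finset.add_sum_erase A _ hy, if_pos rfl, zero_add]
        have : ∀ x ∈ A.erase y, (if x = y then 0 else s x * s y * L x y) = α := by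
          intro x hx
          rw [Finset.mem_erase] at hx
          rw [if_neg hx.1]
          simp [hL, hs, hx.2, hy]
        rw [Finset.sum_congr rfl this, Finset.sum_const, Finset.card_erase_of_mem hy, hA,
          nsmul_eq_mul, Nat.cast_sub (by omega)]
        push_cast
        ring
      have e2 : ∑ x ∈ Aᶜ, (if x = y then 0 else s x * s y * L x y) = (n - p) * (-t) := by
        have : ∀ x ∈ Aᶜ, (if x = y then 0 else s x * s y * L x y) = -t := by
          intro x hx
          rw [Finset.mem_compl] at hx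
          have hxy : x ≠ y := fun h => hx (h ▸ hy)
          rw [if_neg hxy]
          simp [hL, hs, hx, hy]
        rw [Finset.sum_congr rfl this, Finset.sum_const, hAc, nsmul_eq_mul,
          Nat.cast_sub (by omega)]
        push_cast
        rw [hn]
      rw [e1, e2, hα]
      have : (p : ℝ) - 1 ≠ 0 := by linarith
      field_simp
      ring
    · have e1 : ∑ x ∈ A, (if x = y then 0 else s x * s y * L x y) = p * (-t) := by
        have : ∀ x ∈ A, (if x = y then 0 else s x * s y * L x y) = -t := by
          intro x hx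
          have hxy : x ≠ y := fun h => hy (h ▸ hx)
          rw [if_neg hxy]
          simp [hL, hs, hx, hy]
        rw [Finset.sum_congr rfl this, Finset.sum_const, hA, nsmul_eq_mul]
      have hy' : y ∈ Aᶜ := Finset.mem_compl.2 hy
      have e2 : ∑ x ∈ Aᶜ, (if x = y then 0 else s x * s y * L x y) = (n - p - 1) * β := by
        rw [← Finset.add_sum_erase Aᶜ _ hy', if_pos rfl, zero_add]
        have : ∀ x ∈ Aᶜ.erase y, (if x = y then 0 else s x * s y * L x y) = β := by
          intro x hx
          rw [Finset.mem_erase, Finset.mem_compl] at hx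
          rw [if_neg hx.1]
          simp [hL, hs, hx.2, hy]
        rw [Finset.sum_congr rfl this, Finset.sum_const, Finset.card_erase_of_mem hy', hAc,
          nsmul_eq_mul, Nat.cast_sub (by omega), Nat.cast_sub (by omega)]
        push_cast
        rw [hn]
      rw [e1, e2, hβ]
      have : n - (p : ℝ) - 1 ≠ 0 := by linarith
      field_simp
      ring
  · have hprod : ∏ x : Idx m, s x = (-1) ^ p := by
      simp only [hs]
      rw [Finset.prod_ite, Finset.prod_const, Finset.prod_const_one, mul_one]
      congr 1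
      rw [← hA]
      congr 1
      ext x
      simp
    have hterm : ∀ σ : Perm (Idx m), ∏ k : Fin m,
        (if σ (k, 0) = σ (k, 1) then 0 else s (σ (k, 0)) * s (σ (k, 1)) * L (σ (k, 0)) (σ (k, 1))) =
        (-1) ^ p * ∏ k : Fin m, L (σ (k, 0)) (σ (k, 1)) := by
      intro σ
      have h1 : ∀ k : Fin m, (if σ (k, 0) = σ (k, 1) then 0 else
          s (σ (k, 0)) * s (σ (k, 1)) * L (σ (k, 0)) (σ (k, 1))) =
          (s (σ (k, 0)) * s (σ (k, 1))) * L (σ (k, 0)) (σ (k, 1)) := by
        intro k
        rw [if_neg]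
        intro h
        have := σ.injective h
        simp at this
      rw [Finset.prod_congr rfl fun k _ => h1 k, Finset.prod_mul_distrib]
      congr 1
      rw [← hprod, ← Equiv.prod_comp σ s, Fintype.prod_prod_type]
      refine Finset.prod_congr rfl fun k _ => ?_
      rw [Fin.prod_univ_two]
    unfold H
    rw [Finset.sum_congr rfl fun σ _ => hterm σ, ← Finset.mul_sum, ← mul_assoc, ← mul_pow]
    norm_num
    have hpos : ∀ σ : Perm (Idx m), 0 ≤ ∏ k : Fin m, L (σ (k, 0)) (σ (k, 1)) := fun σ =>
      Finset.prod_nonneg fun k _ => htn0.le.trans (hdel _ _)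
    have h2 := Finset.single_le_sum (f := fun σ : Perm (Idx m) =>
      ∏ k : Fin m, L (σ (k, 0)) (σ (k, 1))) (fun σ _ => hpos σ)
      (Finset.mem_univ (1 : Perm (Idx m)))
    refine le_trans ?_ h2
    have h3 : (t / n) ^ m ≤ ∏ k : Fin m, L ((1 : Perm (Idx m)) (k, 0)) ((1 : Perm (Idx m)) (k, 1)) := by
      calc (t / n) ^ m = ∏ k : Fin m, (t / n) := by
            rw [Finset.prod_const, Finset.card_univ, Fintype.card_fin]
        _ ≤ _ := Finset.prod_le_prod (fun _ _ => htn0.le) fun k _ => hdel _ _
    refine le_trans ?_ h3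
    have h4 : 1 ≤ t / n := (one_le_div (by linarith)).2 htn
    have h5 : t / n ≤ (t / n) ^ m := le_self_pow₀ h4 (by omega)
    refine le_trans ?_ h5
    rw [le_div_iff₀ (by linarith)]
    have := le_abs_self M
    nlinarith

end Pool.Agent.Ein
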