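import Pool.Agent.Hhelper29.Ein.Main

set_option autoImplicit false

/-!
# The convex hull of the Chern-Weil vectors of the Einstein curvature tensors
-/

namespace Pool.Agent.Ein

open Finset Equiv MeasureTheory

variable {m : ℕ}

section Abstract

variable {E : Type*} [NormedAddCommGroup E] [NormedSpace ℝ E] [FiniteDimensional ℝ E]

theorem hull_univ {S : Set E} (hne : S.Nonempty)
    (h : ∀ f : E →ₗ[ℝ] ℝ, f ≠ 0 → ∀ u : ℝ, ∃ s ∈ S, f s ≤ u) :
    convexHull ℝ S = Set.univ := by
  have hsub : S ⊆ closure (convexHull ℝ S) := (subset_convexHull ℝ S).trans subset_closure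
  have hcl : closure (convexHull ℝ S) = Set.univ := by
    by_contra hc
    obtain ⟨x, hx⟩ := (Set.ne_univ_iff_exists_notMem _).1 hc
    obtain ⟨f, u, h1, h2⟩ := geometric_hahn_banach_point_closed
      (convex_convexHull ℝ S).closure isClosed_closure hx
    by_cases hf : (f : E →ₗ[ℝ] ℝ) = 0
    · obtain ⟨s, hs⟩ := hne
      have h3 := h2 s (hsub hs)
      have e : ∀ y, f y = 0 := fun y => by
        have := LinearMap.congr_fun hf y
        simpa using this
      rw [e] at h1 h3
      linarith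
    · obtain ⟨s, hs, hs2⟩ := h (f : E →ₗ[ℝ] ℝ) hf u
      have h3 := h2 s (hsub hs)
      have h4 : f s ≤ u := hs2
      linarith
  have haff : affineSpan ℝ S = ⊤ := by
    have hclosed : IsClosed (affineSpan ℝ S : Set E) :=
      AffineSubspace.closed_of_finiteDimensional _
    have h1 : convexHull ℝ S ⊆ affineSpan ℝ S := convexHull_subset_affineSpan S
    have h2 := closure_minimal h1 hclosed
    rw [hcl] at h2
    rw [← SetLike.coe_set_eq, AffineSubspace.top_coe]
    exact Set.univ_subset_iff.1 h2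
  have hint := interior_convexHull_nonempty_iff_affineSpan_eq_top.2 haff
  have h3 := (convex_convexHull ℝ S).interior_closure_eq_interior_of_nonempty_interior hint
  rw [hcl, interior_univ] at h3
  have h4 : interior (convexHull ℝ S) ⊆ convexHull ℝ S := interior_subset
  rw [← h3] at h4
  exact Set.univ_subset_iff.1 h4

theorem hull_span {S : Set E} (V : Submodule ℝ E) (hSV : S ⊆ V) (hne : S.Nonempty)
    (h : ∀ f : E →ₗ[ℝ] ℝ, (∃ v ∈ V, f v ≠ 0) → ∀ u : ℝ, ∃ s ∈ S, f s ≤ u) :
    convexHull ℝ S = V := by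
  refine subset_antisymm (convexHull_min hSV V.convex) ?_
  intro v hv
  set S' : Set V := V.subtype ⁻¹' S with hS'
  have h1 : convexHull ℝ S' = Set.univ := by
    refine hull_univ ?_ ?_
    · obtain ⟨s, hs⟩ := hne
      exact ⟨⟨s, hSV hs⟩, hs⟩
    · intro f hf u
      obtain ⟨g, hg⟩ := LinearMap.exists_extend f
      have hg' : ∀ y : V, g y = f y := fun y => LinearMap.congr_fun hg y
      have hex : ∃ y : V, f y ≠ 0 := by
        by_contra hc
        push Not at hc
        exact hf (LinearMap.ext hc)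
      obtain ⟨y, hy⟩ := hex
      obtain ⟨s, hs, hs2⟩ := h g ⟨y, y.2, by rw [hg']; exact hy⟩ u
      refine ⟨⟨s, hSV hs⟩, hs, ?_⟩
      rw [← hg']
      exact hs2
  have h2 : (⟨v, hv⟩ : V) ∈ convexHull ℝ S' := by
    rw [h1]
    trivial
  have h3 : V.subtype '' convexHull ℝ S' = convexHull ℝ (V.subtype '' S') :=
    LinearMap.image_convexHull _ _
  have h4 : v ∈ V.subtype '' convexHull ℝ S' := ⟨_, h2, rfl⟩
  rw [h3] at h4
  exact convexHull_mono (Set.image_preimage_subset _ _) h4

end Abstract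

theorem functional_charVec (f : ℝ × (Perm (Fin m) → ℝ) →ₗ[ℝ] ℝ) (R : Tens m) :
    f (charVec R) = chernWeil (f (1, 0)) (fun π => f (0, Pi.single π 1)) R := by
  have e : charVec R = euler R • ((1 : ℝ), (0 : Perm (Fin m) → ℝ)) +
      ∑ π, traceForm π R • ((0 : ℝ), (Pi.single π 1 : Perm (Fin m) → ℝ)) := by
    refine Prod.ext ?_ ?_
    · simp [charVec, Prod.fst_sum]
    · funext π
      simp [charVec, Prod.snd_sum, Finset.sum_apply, Pi.single_apply]
  rw [e, map_add, map_smul, map_sum]
  unfold chernWeil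
  rw [smul_eq_mul, mul_comm]
  congr 1
  refine Finset.sum_congr rfl fun π _ => ?_
  rw [map_smul, smul_eq_mul, mul_comm]

theorem hull (hm : 3 ≤ m) (lam : ℝ) :
    convexHull ℝ (charVec '' {R : Tens m | IsCurv R ∧ IsEinstein lam R}) =
      Submodule.span ℝ (charVec '' {R : Tens m | IsCurv R}) := by
  refine hull_span _ ?_ ?_ ?_
  · refine Set.Subset.trans (Set.image_mono ?_) Submodule.subset_span
    intro R hR
    exact hR.1
  · obtain ⟨R, h1, h2, _⟩ := up_euler hm 1 one_ne_zero (0 : Perm (Fin m) → ℝ) lam 0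
    exact ⟨charVec R, R, ⟨h1, h2⟩, rfl⟩
  · intro f ⟨v, hv, hfv⟩ u
    have hex : ∃ R : Tens m, IsCurv R ∧ f (charVec R) ≠ 0 := by
      by_contra hc
      push Not at hc
      have h1 : Submodule.span ℝ (charVec '' {R : Tens m | IsCurv R}) ≤ LinearMap.ker f := by
        rw [Submodule.span_le]
        rintro _ ⟨R, hR, rfl⟩
        exact hc R hR
      exact hfv (h1 hv)
    obtain ⟨R, hR, hR2⟩ := hex
    rw [functional_charVec] at hR2
    obtain ⟨R', h1, h2, h3⟩ := dn hm _ _ ⟨R, hR, hR2⟩ lam u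
    refine ⟨charVec R', ⟨R', ⟨h1, h2⟩, rfl⟩, ?_⟩
    rw [functional_charVec]
    exact h3

theorem average (hm : 3 ≤ m) (lam : ℝ) {Ω : Type*} [MeasurableSpace Ω] (μ : Measure Ω)
    [IsFiniteMeasure μ] (hμ : μ ≠ 0) (R : Ω → Tens m) (hR : ∀ x, IsCurv (R x))
    (hi : Integrable (fun x => charVec (R x)) μ) :
    (⨍ x, charVec (R x) ∂μ) ∈
      convexHull ℝ (charVec '' {R : Tens m | IsCurv R ∧ IsEinstein lam R}) := by
  have : NeZero μ := ⟨hμ⟩
  rw [hull hm]
  refine Convex.average_mem (Submodule.convex _) (Submodule.closed_of_finiteDimensional _) ?_ hi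
  exact Filter.Eventually.of_forall fun x => Submodule.subset_span ⟨R x, hR x, rfl⟩

end Pool.Agent.Ein
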