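import Pool.Agent.Hhelper29.Ein.Trace

set_option autoImplicit false

/-!
# Chern-Weil integrands on Einstein curvature tensors take all values in dimension at least six
-/

namespace Pool.Agent.Ein

open Finset Equiv

variable {m : ℕ}

theorem chernWeil_neg (a : ℝ) (b : Perm (Fin m) → ℝ) (R : Tens m) :
    chernWeil (-a) (fun π => -b π) R = -chernWeil a b R := by
  unfold chernWeil
  simp only [neg_mul, Finset.sum_neg_distrib]
  ring

theorem chernWeil_D (hm : 0 < m) (a : ℝ) (b : Perm (Fin m) → ℝ) (K : Idx m → Idx m → ℝ) :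
    chernWeil a b (D K) = a * (cst m * H K) := by
  unfold chernWeil
  rw [euler_D, Finset.sum_eq_zero, add_zero]
  intro π _
  rw [traceForm_D hm, mul_zero]

theorem up_euler (hm : 3 ≤ m) (a : ℝ) (ha : a ≠ 0) (b : Perm (Fin m) → ℝ) (lam M : ℝ) :
    ∃ R : Tens m, IsCurv R ∧ IsEinstein lam R ∧ M ≤ chernWeil a b R := by
  have hc := cst_pos m
  have key : ∀ p : ℕ, 2 ≤ p → p + 2 ≤ 2 * m → 0 < (-1) ^ p * a →
      ∃ R : Tens m, IsCurv R ∧ IsEinstein lam R ∧ M ≤ chernWeil a b R := by
    intro p hp hp2 hs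
    obtain ⟨K, hK1, hK2, hK3, hK4⟩ := exists_K (by omega) lam p hp hp2
      (M / (((-1) ^ p * a) * cst m))
    refine ⟨D K, isCurv_D hK1, ?_, ?_⟩
    · intro x y
      rw [ric_D hK2, hK3]
    · rw [chernWeil_D (by omega)]
      rw [div_le_iff₀ (by positivity)] at hK4
      have e : (-1 : ℝ) ^ p * H K * ((-1) ^ p * a * cst m) = a * (cst m * H K) := by
        have : ((-1 : ℝ) ^ p) * (-1) ^ p = 1 := by
          rw [← mul_pow]
          norm_num
        linear_combination (a * (cst m * H K)) * this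
      rwa [e] at hK4
  rcases lt_or_gt_of_ne ha with h | h
  · refine key 3 (by norm_num) (by omega) ?_
    linarith
  · refine key 2 le_rfl (by omega) ?_
    linarith

theorem isEinstein_add (hm : 2 ≤ m) {W : Tens m} (hW : ∀ b d, ric W b d = 0) (lam t : ℝ) :
    IsEinstein lam (fun a b c d => t * W a b c d +
      1 * kn (fun x y => lam / (2 * (2 * m - 1)) * dl x y) a b c d) := by
  have hm' : (2 : ℝ) ≤ m := by exact_mod_cast hm
  intro b d
  rw [ric_add, hW, ric_kn]
  have h2 : (2 * (m : ℝ) - 1) ≠ 0 := by linarith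
  by_cases hbd : b = d
  · subst hbd
    rw [if_pos rfl, if_pos rfl]
    simp only [dl, if_true, mul_one]
    rw [Finset.sum_const, Finset.card_univ, Fintype.card_prod, Fintype.card_fin,
      Fintype.card_fin, nsmul_eq_mul]
    push_cast
    have hc : (2 * (2 * (m : ℝ) - 1)) * (lam / (2 * (2 * m - 1))) = lam :=
      mul_div_cancel₀ lam (mul_ne_zero two_ne_zero h2)
    linear_combination hc
  · rw [if_neg hbd, if_neg hbd]
    simp only [dl, if_neg (Ne.symm hbd)]
    ring

theorem up_trace (hm : 3 ≤ m) (b : Perm (Fin m) → ℝ)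
    (hne : ∃ R : Tens m, IsCurv R ∧ chernWeil 0 b R ≠ 0) (lam M : ℝ) :
    ∃ R : Tens m, IsCurv R ∧ IsEinstein lam R ∧ M ≤ chernWeil 0 b R := by
  set P : Tens m → ℝ := fun R => ∑ π, b π * traceForm π R with hP
  have hcw : ∀ R : Tens m, chernWeil 0 b R = P R := by
    intro R
    unfold chernWeil
    rw [zero_mul, zero_add]
  have hPkn : ∀ (R : Tens m) (h : Idx m → Idx m → ℝ), IsCurv R → (∀ x y, h x y = h y x) →
      P (fun a b c d => R a b c d + kn h a b c d) = P R := by
    intro R h hR hh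
    simp only [hP]
    refine Finset.sum_congr rfl fun π _ => ?_
    rw [traceForm_kn π hR hh]
  have hPsm : ∀ (R : Tens m) (t : ℝ), P (fun a b c d => t * R a b c d) = t ^ m * P R := by
    intro R t
    simp only [hP]
    rw [Finset.mul_sum]
    refine Finset.sum_congr rfl fun π _ => ?_
    rw [traceForm_smul]
    ring
  have hPrefl : ∀ (x : Idx m) (R : Tens m), P (refl x R) = -P R := by
    intro x R
    simp only [hP]
    rw [← Finset.sum_neg_distrib]
    refine Finset.sum_congr rfl fun π _ => ?_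
    rw [traceForm_refl]
    ring
  obtain ⟨R0, hR0, hne0⟩ := hne
  rw [hcw] at hne0
  obtain ⟨W, h, hW, hWr, hh, hR0e⟩ := exists_weyl (by omega) hR0
  have hPW : P W ≠ 0 := by
    rw [hR0e, hPkn W h hW hh] at hne0
    exact hne0
  -- a Weyl tensor with positive value
  obtain ⟨V, hV, hVr, hVp⟩ : ∃ V : Tens m, IsCurv V ∧ (∀ b d, ric V b d = 0) ∧ 0 < P V := by
    rcases lt_or_gt_of_ne hPW with h1 | h1
    · set x : Idx m := (⟨0, by omega⟩, 0)
      refine ⟨refl x W, isCurv_refl x hW, ric_refl x hWr, ?_⟩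
      rw [hPrefl]
      linarith
    · exact ⟨W, hW, hWr, h1⟩
  set t : ℝ := 1 + |M| / P V with ht
  have ht1 : 1 ≤ t := by
    have : 0 ≤ |M| / P V := by positivity
    linarith
  set h0 : Idx m → Idx m → ℝ := fun x y => lam / (2 * (2 * m - 1)) * dl x y with hh0
  have hh0s : ∀ x y, h0 x y = h0 y x := by
    intro x y
    simp only [hh0]
    rw [dl_comm]
  refine ⟨fun a b c d => t * V a b c d + 1 * kn h0 a b c d,
    isCurv_add hV (isCurv_kn hh0s) t 1, isEinstein_add (by omega) hVr lam t, ?_⟩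
  rw [hcw]
  have htV : IsCurv (fun a b c d => t * V a b c d) := by
    have := isCurv_add hV (isCurv_kn hh0s) t 0
    simpa using this
  have e1 : (fun a b c d => t * V a b c d + 1 * kn h0 a b c d) =
      (fun a b c d => (fun a b c d => t * V a b c d) a b c d + kn h0 a b c d) := by
    funext a b c d
    ring
  rw [e1, hPkn _ h0 htV hh0s, hPsm]
  have h1 : t ≤ t ^ m := le_self_pow₀ ht1 (by omega)
  have h2 : t * P V ≤ t ^ m * P V := mul_le_mul_of_nonneg_right h1 hVp.le
  refine le_trans ?_ h2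
  have h3 : t * P V = P V + |M| := by
    rw [ht]
    field_simp
  rw [h3]
  have := le_abs_self M
  linarith

theorem up (hm : 3 ≤ m) (a : ℝ) (b : Perm (Fin m) → ℝ)
    (hne : ∃ R : Tens m, IsCurv R ∧ chernWeil a b R ≠ 0) (lam M : ℝ) :
    ∃ R : Tens m, IsCurv R ∧ IsEinstein lam R ∧ M ≤ chernWeil a b R := by
  by_cases ha : a = 0
  · subst ha
    exact up_trace hm b hne lam M
  · exact up_euler hm a ha b lam M

theorem dn (hm : 3 ≤ m) (a : ℝ) (b : Perm (Fin m) → ℝ)
    (hne : ∃ R : Tens m, IsCurv R ∧ chernWeil a b R ≠ 0) (lam M : ℝ) :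
    ∃ R : Tens m, IsCurv R ∧ IsEinstein lam R ∧ chernWeil a b R ≤ M := by
  obtain ⟨R0, hR0, hne0⟩ := hne
  obtain ⟨R, h1, h2, h3⟩ := up hm (-a) (fun π => -b π)
    ⟨R0, hR0, by rw [chernWeil_neg]; exact neg_ne_zero.2 hne0⟩ lam (-M)
  rw [chernWeil_neg] at h3
  exact ⟨R, h1, h2, by linarith⟩

theorem main (hm : 3 ≤ m) (a : ℝ) (b : Perm (Fin m) → ℝ)
    (hne : ∃ R : Tens m, IsCurv R ∧ chernWeil a b R ≠ 0) (lam y : ℝ) :
    ∃ R : Tens m, IsCurv R ∧ IsEinstein lam R ∧ chernWeil a b R = y := by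
  obtain ⟨R1, h11, h12, h13⟩ := dn hm a b hne lam y
  obtain ⟨R2, h21, h22, h23⟩ := up hm a b hne lam y
  set g : ℝ → Tens m := fun s a b c d => (1 - s) * R1 a b c d + s * R2 a b c d with hg
  have hgc : Continuous (fun s => chernWeil a b (g s)) := by
    unfold chernWeil euler traceForm
    simp only [hg]
    fun_prop
  have h0 : g 0 = R1 := by
    funext a b c d
    simp [hg]
  have h1 : g 1 = R2 := by
    funext a b c d
    simp [hg]
  have hiv := intermediate_value_Icc (zero_le_one (α := ℝ)) hgc.continuousOn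
  have hy : y ∈ Set.Icc (chernWeil a b (g 0)) (chernWeil a b (g 1)) := by
    rw [h0, h1]
    exact ⟨h13, h23⟩
  obtain ⟨s, -, hs⟩ := hiv hy
  refine ⟨g s, isCurv_add h11 h21 (1 - s) s, ?_, hs⟩
  intro b d
  simp only [hg]
  rw [ric_add, h12, h22]
  by_cases hbd : b = d
  · rw [if_pos hbd]
    ring
  · rw [if_neg hbd]
    ring

end Pool.Agent.Ein
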