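import Pool.Agent.Hhelper29.Ein.Euler

set_option autoImplicit false

/-!
# Trace forms depend only on the Weyl part of the curvature tensor
-/

namespace Pool.Agent.Ein

open Finset Equiv

variable {m : ℕ}

/-- polarised trace form -/
noncomputable def F (π : Perm (Fin m)) (X : Fin m → Tens m) : ℝ :=
  ∑ σ : Perm (Idx m), sg σ * ∑ i : Fin m → Idx m,
    ∏ j : Fin m, X j (σ (j, 0)) (σ (j, 1)) (i j) (i (π j))

theorem sum_indep (k : Fin m) (g : Idx m → ℝ) (W : (Fin m → Idx m) → ℝ)
    (hW : ∀ i z, W (Function.update i k z) = W i) :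
    (Fintype.card (Idx m) : ℝ) * ∑ i, g (i k) * W i = (∑ z, g z) * ∑ i, W i := by
  have e : Function.Involutive
      (fun x : (Fin m → Idx m) × Idx m => (Function.update x.1 k x.2, x.1 k)) := by
    rintro ⟨i, z⟩
    simp
  have h1 : ∑ x : (Fin m → Idx m) × Idx m, g x.2 * W x.1 = (∑ z, g z) * ∑ i, W i := by
    rw [Fintype.sum_prod_type, Finset.sum_comm, Finset.sum_mul]
    refine Finset.sum_congr rfl fun z _ => ?_
    rw [Finset.mul_sum]
  have h2 : ∑ x : (Fin m → Idx m) × Idx m, g (x.1 k) * W x.1 =
      (Fintype.card (Idx m) : ℝ) * ∑ i, g (i k) * W i := by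
    rw [Fintype.sum_prod_type, Finset.mul_sum]
    refine Finset.sum_congr rfl fun i _ => ?_
    show ∑ _z : Idx m, g (i k) * W i = _
    rw [Finset.sum_const, Finset.card_univ, nsmul_eq_mul]
  rw [← h1, ← h2]
  refine Fintype.sum_equiv e.toPerm _ _ fun x => ?_
  show g (x.1 k) * W x.1 = g (x.1 k) * W (Function.update x.1 k x.2)
  rw [hW]

theorem alt_sum_zero (c : Perm (Idx m)) (hc : sg c = 1) (G : Perm (Idx m) → ℝ)
    (h : ∀ σ, G σ + G (σ * c) + G (σ * c * c) = 0) : ∑ σ, sg σ * G σ = 0 := by
  have h1 : ∑ σ, sg σ * G σ = ∑ σ, sg σ * G (σ * c) := by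
    rw [← Equiv.sum_comp (Equiv.mulRight c)]
    refine Finset.sum_congr rfl fun σ _ => ?_
    rw [Equiv.coe_mulRight, sg_mul, hc, mul_one]
  have h2 : ∑ σ, sg σ * G (σ * c) = ∑ σ, sg σ * G (σ * c * c) := by
    rw [← Equiv.sum_comp (Equiv.mulRight c)]
    refine Finset.sum_congr rfl fun σ _ => ?_
    rw [Equiv.coe_mulRight, sg_mul, hc, mul_one]
  have h3 : ∑ σ, (sg σ * G σ + sg σ * G (σ * c) + sg σ * G (σ * c * c)) = 0 := by
    refine Finset.sum_eq_zero fun σ _ => ?_
    rw [← mul_add, ← mul_add, h, mul_zero]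
  rw [Finset.sum_add_distrib, Finset.sum_add_distrib] at h3
  linarith

theorem prod_update (π : Perm (Fin m)) (X : Fin m → Tens m) (k : Fin m) (A : Tens m)
    (σ : Perm (Idx m)) (i : Fin m → Idx m) :
    ∏ j : Fin m, (Function.update X k A) j (σ (j, 0)) (σ (j, 1)) (i j) (i (π j)) =
      A (σ (k, 0)) (σ (k, 1)) (i k) (i (π k)) *
        ∏ j ∈ Finset.univ.erase k, X j (σ (j, 0)) (σ (j, 1)) (i j) (i (π j)) := by
  rw [← Finset.mul_prod_erase Finset.univ _ (Finset.mem_univ k), Function.update_self]
  congr 1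
  refine Finset.prod_congr rfl fun j hj => ?_
  rw [Finset.mem_erase] at hj
  rw [Function.update_of_ne hj.1]

theorem F_update_add (π : Perm (Fin m)) (X : Fin m → Tens m) (k : Fin m) (A B : Tens m) :
    F π (Function.update X k (fun a b c d => A a b c d + B a b c d)) =
      F π (Function.update X k A) + F π (Function.update X k B) := by
  unfold F
  rw [← Finset.sum_add_distrib]
  refine Finset.sum_congr rfl fun σ _ => ?_
  rw [← mul_add, ← Finset.sum_add_distrib]
  congr 1
  refine Finset.sum_congr rfl fun i _ => ?_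
  rw [prod_update, prod_update, prod_update, add_mul]

theorem F_update_neg (π : Perm (Fin m)) (X : Fin m → Tens m) (k : Fin m) (A : Tens m) :
    F π (Function.update X k (fun a b c d => -A a b c d)) = -F π (Function.update X k A) := by
  unfold F
  rw [← Finset.sum_neg_distrib]
  refine Finset.sum_congr rfl fun σ _ => ?_
  rw [← mul_neg, ← Finset.sum_neg_distrib]
  congr 1
  refine Finset.sum_congr rfl fun i _ => ?_
  rw [prod_update, prod_update, neg_mul]

theorem sg_swap {x y : Idx m} (h : x ≠ y) : sg (Equiv.swap x y) = -1 := by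
  unfold sg
  rw [Perm.sign_swap h]
  norm_num

theorem F_update_swap (π : Perm (Fin m)) (X : Fin m → Tens m) (k : Fin m) (A : Tens m) :
    F π (Function.update X k (fun a b c d => A b a c d)) = -F π (Function.update X k A) := by
  unfold F
  rw [← Equiv.sum_comp (Equiv.mulRight (Equiv.swap ((k, 0) : Idx m) (k, 1))),
    ← Finset.sum_neg_distrib]
  refine Finset.sum_congr rfl fun σ _ => ?_
  rw [Equiv.coe_mulRight, sg_mul, sg_swap (by simp), mul_neg_one, neg_mul]
  congr 2
  refine Finset.sum_congr rfl fun i _ => ?_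
  rw [prod_update, prod_update]
  have h1 : (σ * Equiv.swap ((k, 0) : Idx m) (k, 1)) (k, 0) = σ (k, 1) := by simp
  have h2 : (σ * Equiv.swap ((k, 0) : Idx m) (k, 1)) (k, 1) = σ (k, 0) := by simp
  rw [h1, h2]
  congr 1
  refine Finset.prod_congr rfl fun j hj => ?_
  rw [Finset.mem_erase] at hj
  have h3 : ∀ x : Fin 2, (σ * Equiv.swap ((k, 0) : Idx m) (k, 1)) (j, x) = σ (j, x) := by
    intro x
    rw [Perm.mul_apply, Equiv.swap_apply_of_ne_of_ne]
    · intro h
      exact hj.1 (congrArg Prod.fst h)
    · intro h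
      exact hj.1 (congrArg Prod.fst h)
  rw [h3, h3]

theorem F_transpose (π : Perm (Fin m)) (X : Fin m → Tens m) :
    F π X = F π⁻¹ (fun j a b c d => X j a b d c) := by
  unfold F
  refine Finset.sum_congr rfl fun σ _ => ?_
  congr 1
  rw [← Equiv.sum_comp (Equiv.arrowCongr π (Equiv.refl (Idx m)))]
  refine Finset.sum_congr rfl fun i _ => ?_
  refine Finset.prod_congr rfl fun j _ => ?_
  simp [Equiv.arrowCongr]

theorem core (π : Perm (Fin m)) (X : Fin m → Tens m) (k : Fin m) (hk : π k ≠ k)
    (h : Idx m → Idx m → ℝ)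
    (hY : ∀ a b c d, X (π k) a b c d + X (π k) b c a d + X (π k) c a b d = 0) :
    F π (Function.update X k (fun a b i j => h i a * if j = b then 1 else 0)) = 0 := by
  set k' := π k with hk'
  have hkk' : k ≠ k' := Ne.symm hk
  have hπk' : π k' ≠ k' := by
    intro h1
    have h2 : π k' = π k := h1.trans hk'
    exact hkk' (π.injective h2).symm
  set W : Perm (Idx m) → (Fin m → Idx m) → ℝ := fun σ i =>
    h (i k) (σ (k, 0)) * X k' (σ (k', 0)) (σ (k', 1)) (σ (k, 1)) (i (π k')) *
      ∏ j ∈ (Finset.univ.erase k).erase k', X j (σ (j, 0)) (σ (j, 1)) (i j) (i (π j)) with hW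
  have hmem : k' ∈ Finset.univ.erase k := Finset.mem_erase.2 ⟨hk, Finset.mem_univ _⟩
  have hA : ∀ (σ : Perm (Idx m)) (i : Fin m → Idx m),
      ∏ j : Fin m, (Function.update X k (fun a b i j => h i a * if j = b then 1 else 0)) j
        (σ (j, 0)) (σ (j, 1)) (i j) (i (π j)) =
      (if i k' = σ (k, 1) then 1 else 0) * W σ i := by
    intro σ i
    rw [prod_update, ← Finset.mul_prod_erase _ _ hmem]
    simp only [hW, ← hk']
    by_cases h1 : i k' = σ (k, 1)
    · rw [if_pos h1, h1]
      ring
    · rw [if_neg h1]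
      ring
  have hB : ∀ (σ : Perm (Idx m)) (i : Fin m → Idx m) (z : Idx m),
      W σ (Function.update i k' z) = W σ i := by
    intro σ i z
    simp only [hW]
    rw [Function.update_of_ne hkk', Function.update_of_ne hπk']
    congr 1
    refine Finset.prod_congr rfl fun j hj => ?_
    rw [Finset.mem_erase, Finset.mem_erase] at hj
    have h1 : π j ≠ k' := by
      intro h1
      exact hj.2.1 (π.injective (h1.trans hk'))
    rw [Function.update_of_ne hj.1, Function.update_of_ne h1]
  set c : Perm (Idx m) := Equiv.swap (k, 1) (k', 0) * Equiv.swap (k', 0) (k', 1) with hc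
  have ne1 : ((k, 1) : Idx m) ≠ (k', 0) := fun h => hkk' (congrArg Prod.fst h)
  have ne2 : ((k, 1) : Idx m) ≠ (k', 1) := fun h => hkk' (congrArg Prod.fst h)
  have ne3 : ((k, 0) : Idx m) ≠ (k', 0) := fun h => hkk' (congrArg Prod.fst h)
  have ne4 : ((k, 0) : Idx m) ≠ (k', 1) := fun h => hkk' (congrArg Prod.fst h)
  have ne5 : ((k, 0) : Idx m) ≠ (k, 1) := by simp
  have ne6 : ((k', 0) : Idx m) ≠ (k', 1) := by simp
  have hc1 : c (k, 1) = (k', 0) := by
    have e1 : (Equiv.swap ((k', 0) : Idx m) (k', 1)) (k, 1) = (k, 1) :=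
      Equiv.swap_apply_of_ne_of_ne ne1 ne2
    rw [hc, Perm.mul_apply, e1, Equiv.swap_apply_left]
  have hc2 : c (k', 0) = (k', 1) := by
    rw [hc, Perm.mul_apply, Equiv.swap_apply_left]
    exact Equiv.swap_apply_of_ne_of_ne (Ne.symm ne2) (Ne.symm ne6)
  have hc3 : c (k', 1) = (k, 1) := by
    rw [hc, Perm.mul_apply, Equiv.swap_apply_right, Equiv.swap_apply_right]
  have hc4 : c (k, 0) = (k, 0) := by
    have e1 : (Equiv.swap ((k', 0) : Idx m) (k', 1)) (k, 0) = (k, 0) :=
      Equiv.swap_apply_of_ne_of_ne ne3 ne4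
    rw [hc, Perm.mul_apply, e1]
    exact Equiv.swap_apply_of_ne_of_ne ne5 ne3
  have hc5 : ∀ (j : Fin m) (x : Fin 2), j ≠ k → j ≠ k' → c (j, x) = (j, x) := by
    intro j x h1 h2
    have f1 : ((j, x) : Idx m) ≠ (k, 1) := fun h => h1 (congrArg Prod.fst h)
    have f2 : ((j, x) : Idx m) ≠ (k', 0) := fun h => h2 (congrArg Prod.fst h)
    have f3 : ((j, x) : Idx m) ≠ (k', 1) := fun h => h2 (congrArg Prod.fst h)
    have e1 : (Equiv.swap ((k', 0) : Idx m) (k', 1)) (j, x) = (j, x) :=
      Equiv.swap_apply_of_ne_of_ne f2 f3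
    rw [hc, Perm.mul_apply, e1]
    exact Equiv.swap_apply_of_ne_of_ne f1 f2
  have hsgc : sg c = 1 := by
    rw [hc, sg_mul, sg_swap ne1, sg_swap ne6]
    norm_num
  clear_value c
  have hC : ∀ (σ : Perm (Idx m)) (i : Fin m → Idx m),
      W σ i + W (σ * c) i + W (σ * c * c) i = 0 := by
    intro σ i
    have hrest : ∀ τ : Perm (Idx m), ∏ j ∈ (Finset.univ.erase k).erase k',
        X j ((τ * c) (j, 0)) ((τ * c) (j, 1)) (i j) (i (π j)) =
        ∏ j ∈ (Finset.univ.erase k).erase k', X j (τ (j, 0)) (τ (j, 1)) (i j) (i (π j)) := by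
      intro τ
      refine Finset.prod_congr rfl fun j hj => ?_
      rw [Finset.mem_erase, Finset.mem_erase] at hj
      rw [Perm.mul_apply, Perm.mul_apply, hc5 j 0 hj.2.1 hj.1, hc5 j 1 hj.2.1 hj.1]
    simp only [hW]
    rw [hrest (σ * c), hrest σ]
    simp only [Perm.mul_apply, hc1, hc2, hc3, hc4]
    have := hY (σ (k', 0)) (σ (k', 1)) (σ (k, 1)) (i (π k'))
    linear_combination (h (i k) (σ (k, 0)) *
      ∏ j ∈ (Finset.univ.erase k).erase k', X j (σ (j, 0)) (σ (j, 1)) (i j) (i (π j))) * this
  have hN : (Fintype.card (Idx m) : ℝ) ≠ 0 := by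
    have : Nonempty (Idx m) := ⟨(k, 0)⟩
    exact_mod_cast Fintype.card_ne_zero
  have hfin : (Fintype.card (Idx m) : ℝ) *
      F π (Function.update X k (fun a b i j => h i a * if j = b then 1 else 0)) =
      ∑ σ, sg σ * ∑ i, W σ i := by
    unfold F
    rw [Finset.mul_sum]
    refine Finset.sum_congr rfl fun σ _ => ?_
    rw [mul_left_comm]
    congr 1
    rw [Finset.sum_congr rfl fun i _ => hA σ i]
    have h1 := sum_indep k' (fun z => if z = σ (k, 1) then (1 : ℝ) else 0) (W σ) (hB σ)
    rw [h1]
    simp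
  have hzero : ∑ σ, sg σ * ∑ i, W σ i = 0 := by
    refine alt_sum_zero c hsgc _ fun σ => ?_
    rw [← Finset.sum_add_distrib, ← Finset.sum_add_distrib]
    exact Finset.sum_eq_zero fun i _ => hC σ i
  rw [hzero] at hfin
  exact (mul_eq_zero.1 hfin).resolve_left hN

/-- the metric -/
def dl (x y : Idx m) : ℝ := if x = y then 1 else 0

theorem dl_comm (x y : Idx m) : dl x y = dl y x := by
  unfold dl
  simp only [eq_comm]

/-- Kulkarni-Nomizu product of `h` with the metric -/
def kn (h : Idx m → Idx m → ℝ) : Tens m := fun a b i j =>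
  (h i a * dl j b + -(h i b * dl j a)) + -(h j a * dl i b + -(h j b * dl i a))

theorem IsCurv.skew34 {R : Tens m} (hR : IsCurv R) (a b c d : Idx m) : R a b d c = -R a b c d := by
  rw [← hR.symm a b d c, hR.skew, hR.symm]

theorem core1 (π : Perm (Fin m)) (X : Fin m → Tens m) (k : Fin m) (hk : π k ≠ k)
    (h : Idx m → Idx m → ℝ)
    (hY : ∀ a b c d, X (π k) a b c d + X (π k) b c a d + X (π k) c a b d = 0) :
    F π (Function.update X k (fun a b i j => h i a * dl j b + -(h i b * dl j a))) = 0 := by
  have h0 : F π (Function.update X k (fun a b i j => h i a * dl j b)) = 0 := core π X k hk h hY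
  rw [F_update_add, h0, zero_add, F_update_neg,
    F_update_swap π X k (fun a b i j => h i a * dl j b), h0]
  simp

theorem kn_vanish (π : Perm (Fin m)) (X : Fin m → Tens m) (hX : ∀ j, IsCurv (X j)) (k : Fin m)
    (h : Idx m → Idx m → ℝ) : F π (Function.update X k (kn h)) = 0 := by
  by_cases hk : π k = k
  · unfold F
    refine Finset.sum_eq_zero fun σ _ => ?_
    rw [Finset.sum_eq_zero, mul_zero]
    intro i _
    rw [prod_update, hk]
    unfold kn
    ring
  · unfold kn
    rw [F_update_add, core1 π X k hk h (hX _).bianchi, zero_add, F_update_neg, neg_eq_zero,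
      F_transpose]
    have e : (fun j a b c d => Function.update X k (fun a b i j =>
        h j a * dl i b + -(h j b * dl i a)) j a b d c) =
        Function.update (fun j a b c d => X j a b d c) k (fun a b i j =>
        h i a * dl j b + -(h i b * dl j a)) := by
      funext j
      by_cases hj : j = k
      · subst hj
        simp
      · simp [hj]
    rw [e]
    apply core1
    · intro h1
      apply hk
      have h2 := congrArg π h1
      simp at h2
      exact h2.symm
    · intro a b c d
      have h1 := hX (π⁻¹ k)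
      rw [h1.skew34 a b, h1.skew34 b c, h1.skew34 c a]
      have := h1.bianchi a b c d
      linarith

theorem isCurv_kn {h : Idx m → Idx m → ℝ} (hh : ∀ a b, h a b = h b a) : IsCurv (kn h) := by
  refine ⟨fun a b c d => ?_, fun a b c d => ?_, fun a b c d => ?_⟩
  · unfold kn
    ring
  · unfold kn
    rw [hh a c, hh a d, hh b c, hh b d, dl_comm b d, dl_comm b c, dl_comm a d, dl_comm a c]
    ring
  · unfold kn
    rw [hh a c, hh b c, hh b a, dl_comm a c, dl_comm b a, dl_comm b c]
    ring

theorem isCurv_add {R S : Tens m} (hR : IsCurv R) (hS : IsCurv S) (s t : ℝ) :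
    IsCurv (fun a b c d => s * R a b c d + t * S a b c d) := by
  refine ⟨fun a b c d => ?_, fun a b c d => ?_, fun a b c d => ?_⟩
  · rw [hR.skew, hS.skew]
    ring
  · rw [hR.symm, hS.symm]
  · linear_combination s * hR.bianchi a b c d + t * hS.bianchi a b c d

theorem isCurv_add' {R S : Tens m} (hR : IsCurv R) (hS : IsCurv S) :
    IsCurv (fun a b c d => R a b c d + S a b c d) := by
  have := isCurv_add hR hS 1 1
  simpa using this

/-- conformal invariance of the trace forms -/
theorem traceForm_kn (π : Perm (Fin m)) {R : Tens m} (hR : IsCurv R) {h : Idx m → Idx m → ℝ}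
    (hh : ∀ a b, h a b = h b a) :
    traceForm π (fun a b c d => R a b c d + kn h a b c d) = traceForm π R := by
  classical
  set R' : Tens m := fun a b c d => R a b c d + kn h a b c d with hR'
  have hR'c : IsCurv R' := isCurv_add' hR (isCurv_kn hh)
  have key : ∀ s : Finset (Fin m), F π (fun j => if j ∈ s then R' else R) = F π (fun _ => R) := by
    intro s
    induction s using Finset.induction_on with
    | empty => simp
    | insert k s hks ih =>
      set X : Fin m → Tens m := fun j => if j ∈ s then R' else R with hX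
      have hXc : ∀ j, IsCurv (X j) := by
        intro j
        simp only [hX]
        split_ifs
        · exact hR'c
        · exact hR
      have e1 : (fun j => if j ∈ insert k s then R' else R) = Function.update X k R' := by
        funext j
        by_cases hj : j = k
        · subst hj
          simp
        · simp [hj, hX]
      have e2 : Function.update X k R = X := by
        funext j
        by_cases hj : j = k
        · subst hj
          simp [hX, hks]
        · simp [hj]
      rw [e1, hR', F_update_add, kn_vanish π X hXc k h, add_zero, e2]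
      exact ih
  have := key Finset.univ
  simpa [F, traceForm] using this

theorem ric_kn (h : Idx m → Idx m → ℝ) (b d : Idx m) :
    ric (kn h) b d = (if b = d then ∑ a, h a a else 0) + (2 * m - 2) * h d b := by
  unfold ric kn dl
  simp only [Finset.sum_add_distrib, Finset.sum_neg_distrib, mul_ite, mul_one, mul_zero,
    Finset.sum_ite_eq, Finset.sum_ite_eq', Finset.mem_univ, if_true]
  have h1 : ∑ a : Idx m, h d b = (2 * m : ℝ) * h d b := by
    rw [Finset.sum_const, Finset.card_univ, Fintype.card_prod, Fintype.card_fin, Fintype.card_fin,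
      nsmul_eq_mul]
    push_cast
    ring
  rw [h1]
  by_cases hbd : b = d
  · subst hbd
    simp
    ring
  · simp [hbd, Ne.symm hbd]
    ring

theorem ric_add (R S : Tens m) (s t : ℝ) (b d : Idx m) :
    ric (fun a b c d => s * R a b c d + t * S a b c d) b d = s * ric R b d + t * ric S b d := by
  unfold ric
  rw [Finset.sum_add_distrib, Finset.mul_sum, Finset.mul_sum]

theorem ric_symm {R : Tens m} (hR : IsCurv R) (b d : Idx m) : ric R b d = ric R d b := by
  unfold ric
  exact Finset.sum_congr rfl fun a _ => (hR.symm a b a d).symm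

/-- Weyl decomposition -/
theorem exists_weyl (hm : 2 ≤ m) {R : Tens m} (hR : IsCurv R) :
    ∃ (W : Tens m) (h : Idx m → Idx m → ℝ), IsCurv W ∧ (∀ b d, ric W b d = 0) ∧
      (∀ a b, h a b = h b a) ∧ R = fun a b c d => W a b c d + kn h a b c d := by
  have hm' : (2 : ℝ) ≤ m := by exact_mod_cast hm
  set s : ℝ := ∑ a, ric R a a with hs
  set h : Idx m → Idx m → ℝ := fun b d =>
    (1 / (2 * m - 2)) * (ric R b d - (if b = d then s / (2 * (2 * m - 1)) else 0)) with hh
  have hsymm : ∀ a b, h a b = h b a := by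
    intro a b
    simp only [hh]
    rw [ric_symm hR a b]
    simp only [eq_comm (a := a) (b := b)]
  have htr : ∑ a, h a a = s / (2 * (2 * m - 1)) := by
    simp only [hh, if_true]
    rw [← Finset.mul_sum, Finset.sum_sub_distrib, ← hs, Finset.sum_const, Finset.card_univ,
      Fintype.card_prod, Fintype.card_fin, Fintype.card_fin, nsmul_eq_mul]
    push_cast
    have h1 : (2 * (m : ℝ) - 2) ≠ 0 := by linarith
    have h2 : (2 * (m : ℝ) - 1) ≠ 0 := by linarith
    have h3 : (m : ℝ) - 1 ≠ 0 := by linarith
    field_simp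
    ring
  refine ⟨fun a b c d => 1 * R a b c d + (-1) * kn h a b c d, h,
    isCurv_add hR (isCurv_kn hsymm) 1 (-1), ?_, hsymm, ?_⟩
  · intro b d
    rw [ric_add, ric_kn, htr, hsymm d b]
    simp only [hh]
    have h1 : (2 * (m : ℝ) - 2) ≠ 0 := by linarith
    have h2 : (2 * (m : ℝ) - 1) ≠ 0 := by linarith
    have h3 : (m : ℝ) - 1 ≠ 0 := by linarith
    by_cases hbd : b = d
    · simp only [if_pos hbd]
      field_simp
      ring
    · simp only [if_neg hbd]
      field_simp
      ring
  · funext a b c d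
    ring

theorem traceForm_smul (π : Perm (Fin m)) (R : Tens m) (t : ℝ) :
    traceForm π (fun a b c d => t * R a b c d) = t ^ m * traceForm π R := by
  unfold traceForm
  rw [Finset.mul_sum]
  refine Finset.sum_congr rfl fun σ _ => ?_
  rw [mul_left_comm]
  congr 1
  rw [Finset.mul_sum]
  refine Finset.sum_congr rfl fun i _ => ?_
  rw [Finset.prod_mul_distrib, Finset.prod_const, Finset.card_univ, Fintype.card_fin]

/-- reflection in the hyperplane orthogonal to a basis vector -/
def refl (x : Idx m) (R : Tens m) : Tens m := fun a b c d =>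
  (if a = x then -1 else 1) * (if b = x then -1 else 1) * (if c = x then -1 else 1) *
    (if d = x then -1 else 1) * R a b c d

theorem isCurv_refl (x : Idx m) {R : Tens m} (hR : IsCurv R) : IsCurv (refl x R) := by
  refine ⟨fun a b c d => ?_, fun a b c d => ?_, fun a b c d => ?_⟩
  · unfold refl
    rw [hR.skew]
    ring
  · unfold refl
    rw [hR.symm]
    ring
  · unfold refl
    linear_combination ((if a = x then -1 else 1) * (if b = x then -1 else 1) *
      (if c = x then -1 else 1) * (if d = x then -1 else 1)) * hR.bianchi a b c d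

theorem ric_refl (x : Idx m) {R : Tens m} (h : ∀ b d, ric R b d = 0) (b d : Idx m) :
    ric (refl x R) b d = 0 := by
  have e : ric (refl x R) b d = ((if b = x then -1 else 1) * (if d = x then -1 else 1)) *
      ric R b d := by
    unfold ric refl
    rw [Finset.mul_sum]
    refine Finset.sum_congr rfl fun a _ => ?_
    split_ifs <;> ring
  rw [e, h, mul_zero]

theorem traceForm_refl (π : Perm (Fin m)) (x : Idx m) (R : Tens m) :
    traceForm π (refl x R) = -traceForm π R := by
  unfold traceForm
  rw [← Finset.sum_neg_distrib]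
  refine Finset.sum_congr rfl fun σ _ => ?_
  rw [← mul_neg, ← Finset.sum_neg_distrib]
  congr 1
  refine Finset.sum_congr rfl fun i _ => ?_
  unfold refl
  rw [Finset.prod_mul_distrib, Finset.prod_mul_distrib, Finset.prod_mul_distrib]
  have h1 : (∏ k : Fin m, ((if σ (k, 0) = x then (-1 : ℝ) else 1) *
      (if σ (k, 1) = x then -1 else 1))) = -1 := by
    have h2 : ∏ y : Idx m, (if σ y = x then (-1 : ℝ) else 1) = -1 := by
      rw [Equiv.prod_comp σ (fun y => if y = x then (-1 : ℝ) else 1)]
      simp [Finset.prod_ite_eq']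
    refine Eq.trans ?_ h2
    rw [Fintype.prod_prod_type]
    refine Finset.prod_congr rfl fun k _ => ?_
    rw [Fin.prod_univ_two]
  rw [h1]
  have h3 : ∏ k : Fin m, (if i (π k) = x then (-1 : ℝ) else 1) =
      ∏ k : Fin m, (if i k = x then (-1 : ℝ) else 1) :=
    Equiv.prod_comp π (fun k => if i k = x then (-1 : ℝ) else 1)
  rw [h3]
  have h4 : (∏ k : Fin m, (if i k = x then (-1 : ℝ) else 1)) *
      (∏ k : Fin m, (if i k = x then (-1 : ℝ) else 1)) = 1 := by
    rw [← Finset.prod_mul_distrib]
    refine Finset.prod_eq_one fun k _ => ?_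
    split_ifs <;> norm_num
  linear_combination (-(∏ k : Fin m, R (σ (k, 0)) (σ (k, 1)) (i k) (i (π k)))) * h4

end Pool.Agent.Ein
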